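import Pool.Agent.TH820.LG.NP2

/-!
# Non-vanishing at the edge over nilpotent extensions

`X` is a smooth projective variety over a number field `K`; in the question `K = ℚ`.  For a number field
`E ⊇ K` the variety `X_E`, seen as a variety over `ℚ`, is smooth and projective, with the `L`-function
`L(H^i(X_E), s)`, an Euler product over the primes of `E`.  `F/K` is a finite Galois extension with
nilpotent Galois group `G`, such that the order of `G / Z(G)` has no small prime divisors; for example `G`
is any `p`-group for a prime number `p` that is large compared with the Betti number.  The theorem is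
about the orders at the real point `s₀ = i/2 + 1`, the point `i/2 + 1 + iτ` for `τ = 0`.  The definitions
are in `Pool.Agent.TH820.LG.NilDefs`, `Pool.Agent.TH820.LG.ExtDefs`, `Pool.Agent.TH820.LG.Defs`,
`Pool.Agent.W353.AT.Defs`, `Pool.Agent.W353.EH.Defs` and `Pool.Agent.W353.EF.Defs`.
-/

set_option autoImplicit false

namespace Pool.Agent.Results.MP_2b9663_nt.NilpotentExtensions

open NumberField Pool.Agent.TH820.LG

/-- **Non-vanishing at `s₀ = i/2 + 1` over nilpotent extensions.**  Let `X` be a projective variety of
dimension `d` over a number field `K`, `0 ≤ i ≤ 2d`, `N` the `i`-th Betti number, and `F/K` a finite Galois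
extension with nilpotent Galois group `G`, such that every prime divisor of the order of `G / Z(G)` is
larger than `4N²`.  Suppose that `L(H^i(X) ⊗ χ, s)` has a meromorphic continuation to a neighbourhood of
`s₀` for all irreducible representations `χ` of `Gal(F/K)` of dimension `≠ 1`.
* All these functions have neither a zero nor a pole at `s₀`.
* Let `E` be any field with `K ⊆ E ⊆ F` and `E₀` its largest subfield that is abelian over `K`.  If
  `L(H^i(X_E), s)` and `L(H^i(X_{E₀}), s)` have meromorphic continuations to neighbourhoods of `s₀`, then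
  they have the same order at `s₀`; so if the second function does not vanish at `s₀`, then the first
  does not vanish at `s₀`. -/
theorem result (K : Type) [Field K] [NumberField K] (l d i N : ℕ)
    (X : Set (MvPolynomial (Fin l) (𝓞 K))) (hi : i ≤ 2 * d)
    (F : IntermediateField K (AlgebraicClosure K)) [NumberField F]
    (hF : IsNilpotentExtension (4 * N ^ 2) F)
    (H : ∀ (r : ℕ) (χ : Representation ℂ Gal(AlgebraicClosure K/K) (Fin r → ℂ)), IsNonabelian F χ →
        ∃ k : ℤ, Pool.Agent.W353.AT.TwistOrder X d i N χ 0 k) :
      (∀ (r : ℕ) (χ : Representation ℂ Gal(AlgebraicClosure K/K) (Fin r → ℂ)), IsNonabelian F χ →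
        ∀ k : ℤ, Pool.Agent.W353.AT.TwistOrder X d i N χ 0 k → k = 0) ∧
      ∀ (E₀ E : IntermediateField K (AlgebraicClosure K)) [NumberField E₀] [NumberField E],
        E ≤ F → IsMaxAbelian E₀ E →
        ∀ k k₀ : ℤ, Pool.Agent.W353.EH.OrderOver X d i N E 0 k →
          Pool.Agent.W353.EH.OrderOver X d i N E₀ 0 k₀ → k = k₀ ∧ (k₀ ≤ 0 → k ≤ 0) := by
  obtain ⟨h1, h2⟩ := nilpotentOrders d i N X hi F 0 hF H
  refine ⟨h1, fun E₀ E _ _ hEF hE k k₀ hk hk₀ => ?_⟩
  have h3 := (h2 E₀ E hEF hE).2 k k₀ hk hk₀
  exact ⟨h3, fun h4 => h3.trans_le h4⟩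

end Pool.Agent.Results.MP_2b9663_nt.NilpotentExtensions
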